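import Mathlib
import Pool.Agent.H72.Grig

namespace Pool.Agent.Results.MP_03d093_al.SphEquiv

open Pool.Agent.H72.GrigDefs

/-- `f ⪯ h`. -/
def Preceq (f h : ℕ → ℕ) : Prop := ∃ C : ℕ, 1 ≤ C ∧ ∀ n : ℕ, 1 ≤ n → f n ≤ h (C * n)

theorem result : Preceq sph growth ∧ Preceq growth sph :=
  ⟨⟨1, le_rfl, fun n _ => by simpa using Pool.Agent.H72.Grig.sph_le n⟩,
    Pool.Agent.H72.Grig.growth_le_sph⟩

end Pool.Agent.Results.MP_03d093_al.SphEquiv
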